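import Pool.Agent.Lib.L8.PM.Stm
import Pool.Agent.Lib.L8.EX2
import Pool.Agent.Lib.L8.PW.Num

/-!
# The exceptional types: the size condition
-/

namespace Pool.Agent.Lib.L8.PM

open Matrix NumberField

noncomputable section

set_option linter.unusedSectionVars false

variable {ι M N : Type} [Fintype ι] [DecidableEq ι] [AddCommGroup M] [Module ℚ M] [AddCommGroup N] [Module ℚ N]
  {P : RootPairing ι ℚ M N} [P.IsCrystallographic] [P.IsRootSystem] [P.IsReduced] [P.IsIrreducible] {b : P.Base}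

/-- **The exceptional types** `G₂`, `F₄`, `E₆`, `E₇`, `E₈` and the numbers `D = 15, 88, 96, 243, 841`. (The dimensions of the groups are `14, 52, 78, 133, 248`.) -/
def Exc (b : P.Base) (D : ℕ) : Prop :=
  (EX2.Typ b CartanMatrix.G₂ ∧ D = 15) ∨ (EX2.Typ b CartanMatrix.F₄ ∧ D = 88) ∨ (EX2.Typ b CartanMatrix.E₆ ∧ D = 96) ∨ (EX2.Typ b CartanMatrix.E₇ ∧ D = 243) ∨ (EX2.Typ b CartanMatrix.E₈ ∧ D = 841)

theorem hasR {D : ℕ} (h : Exc b D) : EX2.HasR b D := by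
  rcases h with ⟨h, rfl⟩ | ⟨h, rfl⟩ | ⟨h, rfl⟩ | ⟨h, rfl⟩ | ⟨h, rfl⟩
  · exact EX2.hasR_of h (fun k => by fin_cases k <;> norm_num) PW.num_G2_one (fun y hy i => by exact_mod_cast PW.num_G2 y hy i)
  · exact EX2.hasR_of h (fun k => by fin_cases k <;> norm_num) PW.num_F4_one (fun y hy i => by exact_mod_cast PW.num_F4 y hy i)
  · exact EX2.hasR_of h (fun k => by fin_cases k <;> norm_num) PW.num_E6_one (fun y hy i => by exact_mod_cast PW.num_E6 y hy i)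
  · exact EX2.hasR_of h (fun k => by fin_cases k <;> norm_num) PW.num_E7_one (fun y hy i => by exact_mod_cast PW.num_E7 y hy i)
  · exact EX2.hasR_of h (fun k => by fin_cases k <;> norm_num) PW.num_E8_one (fun y hy i => by exact_mod_cast PW.num_E8 y hy i)

theorem exc_pos {D : ℕ} (h : Exc b D) : 0 < D := by
  rcases h with ⟨_, rfl⟩ | ⟨_, rfl⟩ | ⟨_, rfl⟩ | ⟨_, rfl⟩ | ⟨_, rfl⟩ <;> norm_num

/-- **The size condition for the exceptional types**: `q ^ ⟨2ρ, λ⟩ ≤ N ^ D` and `|a_β| ≥ N ^ (ht β)`. -/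
theorem sz_exc {D : ℕ} (hD : Exc b D) {q N : ℝ} (hq : 1 ≤ q) (hN : 1 ≤ N) {c c' : b.support → ℤ} (hc : ∀ i : b.support, 0 ≤ pr b c i) (hc' : ∀ i : b.support, 0 ≤ pr b c' i)
    (h : q ^ (∑ β with 0 < b.height β, pr b c β) ≤ N ^ D) (h' : q ^ (∑ β with 0 < b.height β, pr b c' β) ≤ N ^ D) {A : ι → ℝ} (hA : ∀ β, 0 < b.height β → N ^ b.height β ≤ A β)
    {Rb : b.support → ℝ} (hR : ∀ i, Rb i ≤ 1) : Sz b q N (fun i => ∏ β ∈ Phi b i, A β) Rb c c' := by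
  have hq0 : (0 : ℝ) < q := lt_of_lt_of_le one_pos hq
  have hN0 : (0 : ℝ) < N := lt_of_lt_of_le one_pos hN
  have key : ∀ {c : b.support → ℤ}, (∀ i : b.support, 0 ≤ pr b c i) → q ^ (∑ β with 0 < b.height β, pr b c β) ≤ N ^ D → ∀ i, q ^ (∑ β ∈ Phi b i, pr b c β) ≤ ∏ β ∈ Phi b i, A β := by
    intro c hc h i
    refine le_trans (EX2.sz_int (hasR hD) (exc_pos hD) hq hN hc h i) ?_
    have h1 : ∏ β ∈ Phi b i, N ^ b.height β ≤ ∏ β ∈ Phi b i, A β := Finset.prod_le_prod (fun β _ => (zpow_pos hN0 _).le) fun β hβ => hA β (L1S.d3_pos hβ)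
    refine le_trans (le_of_eq ?_) h1
    have h2 : ∀ s : Finset ι, N ^ (∑ β ∈ s, b.height β) = ∏ β ∈ s, N ^ b.height β := by
      classical
      intro s
      induction s using Finset.induction_on with
      | empty => simp
      | insert a s ha ih => rw [Finset.sum_insert ha, Finset.prod_insert ha, zpow_add₀ hN0.ne', ih]
    exact h2 _
  intro i j _
  left
  have h1 := key hc h i
  have h2 := key hc' h' j
  have p1 : 0 ≤ q ^ (∑ β ∈ Phi b i, pr b c β) := (zpow_pos hq0 _).le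
  have p2 : 0 ≤ q ^ (∑ β ∈ Phi b j, pr b c' β) := (zpow_pos hq0 _).le
  unfold S2
  rw [zpow_add₀ hq0.ne']
  have h3 : q ^ (∑ β ∈ Phi b i, pr b c β) * q ^ (∑ β ∈ Phi b j, pr b c' β) ≤ (∏ β ∈ Phi b i, A β) * ∏ β ∈ Phi b j, A β := mul_le_mul h1 h2 p2 (p1.trans h1)
  calc q ^ (∑ β ∈ Phi b i, pr b c β) * q ^ (∑ β ∈ Phi b j, pr b c' β) * Rb i ≤ q ^ (∑ β ∈ Phi b i, pr b c β) * q ^ (∑ β ∈ Phi b j, pr b c' β) * 1 :=
        mul_le_mul_of_nonneg_left (hR i) (mul_nonneg p1 p2)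
    _ ≤ (∏ β ∈ Phi b i, A β) * ∏ β ∈ Phi b j, A β := by rw [mul_one]; exact h3
    _ ≤ N ^ (Phi b i).card * ((∏ β ∈ Phi b i, A β) * ∏ β ∈ Phi b j, A β) :=
        le_mul_of_one_le_left ((mul_nonneg p1 p2).trans h3) (one_le_pow₀ hN)

end

end Pool.Agent.Lib.L8.PM
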