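import Pool.Agent.Lib.L8.PM.Stm
import Pool.Agent.Lib.L8.MG

/-!
# The hybrid density theorem: the equivalence of the two forms of the statement
-/

namespace Pool.Agent.Lib.L8.PM

open MeasureTheory Matrix NumberField IsDedekindDomain

noncomputable section

variable {ι M N : Type} [Fintype ι] [DecidableEq ι] [AddCommGroup M] [Module ℚ M] [AddCommGroup N] [Module ℚ N]
  {P : RootPairing ι ℚ M N} [P.IsCrystallographic] {b : P.Base} {K L : Type} [Field K] [NumberField K] [Field L] [NumberField L] [Algebra K L] (Q : QS b K L)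

/-! ## The group -/

/-- The action of the Galois group in the form of QStm.lean. -/
def old : L1S.QS b K L := ⟨Q.act, fun s => ⟨Q.base s, Q.pair s⟩⟩

/-- The height. -/
abbrev h0 (b : P.Base) : b.support ⊕ ι → ℤ := Sum.elim (fun _ => 0) b.height

/-- The split group. -/
abbrev GL' (b : P.Base) (L : Type) [Field L] [NumberField L] : Subgroup (GL (b.support ⊕ ι) L) := Grp (RootPairing.GeckConstruction.e (b := b)) RootPairing.GeckConstruction.f L

/-- The quasi-split group. -/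
abbrev GQ : Subgroup (GL' b L) := Fix (h0 b) (GL' b L) fun s => Sum.map (sp Q s) (Q.act s)

theorem gl_eq : GL' b L = L1S.GQ b L := rfl

theorem gq_eq : GQ Q = L1S.HQ (old Q) := rfl

/-- The closure of `G(L)`. -/
abbrev G0 (b : P.Base) (L : Type) [Field L] [NumberField L] : Subgroup (GL (b.support ⊕ ι) (mixedEmbedding.mixedSpace L)) := Cl (GeneralLinearGroup.map (mixedEmbedding L)) (GL' b L)

theorem g0_eq : G0 b L = L1S.GE b L := rfl

/-- The real group. -/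
abbrev G1 : Subgroup (G0 b L) := Cl (em (GeneralLinearGroup.map (mixedEmbedding L)) (GL' b L)) (GQ Q)

theorem g1_eq : G1 Q = L1S.HRs (L1S.HQ (old Q)) := rfl

/-- The unipotent group. -/
abbrev U1 : Subgroup (G1 Q) := (Uni (h0 b) (G0 b L)).subgroupOf (G1 Q)

theorem u1_eq : U1 Q = L1S.UHR (L1S.HQ (old Q)) := rfl

theorem em_eq (g : GQ Q) : em (em (GeneralLinearGroup.map (mixedEmbedding L)) (GL' b L)) (GQ Q) g = L1S.embH (L1S.HQ (old Q)) g := rfl

/-! ## Levels -/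

variable (𝔫 : Ideal (𝓞 K)) (v : HeightOneSpectrum (𝓞 K)) (r s : ℕ)

theorem gamA_eq : GamA 𝔫 v r s (h0 b) (GL' b L) = L1S.GamL b L 𝔫 v r s := by
  ext g
  exact ⟨fun h i j => ⟨h.1 i j, h.2 i j⟩, fun h => ⟨fun i j => (h i j).1, fun i j => (h i j).2⟩⟩

theorem gam_eq : Gam 𝔫 v r s (h0 b) (em (em (GeneralLinearGroup.map (mixedEmbedding L)) (GL' b L)) (GQ Q)) = L1S.GamHR (L1S.HQ (old Q)) 𝔫 v r s := by
  unfold Gam
  rw [gamA_eq]
  rfl

theorem inO_top (x : L) : InO (⊤ : Ideal (𝓞 K)) x ↔ L1S.InI (⊤ : Ideal (𝓞 L)) x := by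
  unfold InO
  rw [Ideal.map_top]
  rfl

theorem intV_iff (x : L) : IntV v x ↔ L1S.IntV v x := by
  unfold IntV L1S.IntV
  simp only [inO_top]

theorem iwV_of {π : K} {g : Matrix (b.support ⊕ ι) (b.support ⊕ ι) L} (h : IwV v r s (h0 b) π g) : L1S.IwV b v r s π g := fun i j =>
  ⟨(intV_iff v _).1 (h i j).1, fun e => (intV_iff v _).1 ((h i j).2.1 e), fun e => (intV_iff v _).1 ((h i j).2.2 e)⟩

theorem hecke_of {π : K} {c : b.support → ℤ} {g : GL' b L} (h : g ∈ HG 𝔫 v (GL' b L) ∧ AtV v r s (h0 b) π (wt b c) g.1) :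
    g ∈ L1S.HGL b L 𝔫 v ∧ L1S.AtVL b v r s π c g := by
  obtain ⟨⟨j, hj⟩, h2, h3⟩ := h
  refine ⟨⟨j, fun i k => ⟨fun y hy => (hj i k y hy).1, fun y hy => (hj i k y hy).2⟩⟩, iwV_of v r s ?_, iwV_of v r s ?_⟩
  · have e : (fun i => algebraMap K L π ^ L1S.pr b c i) = fun i => algebraMap K L π ^ wt b c i := by
      funext i
      rcases i with i | β <;> rfl
    rw [e]
    exact h2
  · have e : (fun i => algebraMap K L π ^ (-L1S.pr b c i)) = fun i => algebraMap K L π ^ (-wt b c i) := by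
      funext i
      rcases i with i | β <;> rfl
    rw [e]
    exact h3

theorem gen_of {θ : b.support → (mixedEmbedding.mixedSpace L →ₗ[ℝ] ℝ)}
    (h : Gen (U1 Q) (mixedEmbedding L) (Gam 𝔫 v r s (h0 b) (em (em (GeneralLinearGroup.map (mixedEmbedding L)) (GL' b L)) (GQ Q))) (fun i => (Sum.inl i, Sum.inr (P.reflectionPerm i i))) (sp Q) θ) :
    L1S.GenQ (old Q) 𝔫 v r s θ := by
  refine ⟨h.1, fun u hu => h.2 u ?_⟩
  rw [gam_eq]
  exact hu

/-! ## The archimedean places -/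

/-- The archimedean absolute values. -/
abbrev nrL (L : Type) [Field L] [NumberField L] : InfinitePlace L → mixedEmbedding.mixedSpace L → ℝ := fun w z => mixedEmbedding.normAtPlace w z

/-- The multiplicities. -/
abbrev eL (L : Type) [Field L] [NumberField L] : InfinitePlace L → ℕ := fun w => w.mult

/-- The restriction of places. -/
abbrev plL (K L : Type) [Field K] [NumberField K] [Field L] [NumberField L] [Algebra K L] : InfinitePlace L → InfinitePlace K := fun w => w.comap (algebraMap K L)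

theorem nm_eq (z : mixedEmbedding.mixedSpace L) : nm (nrL L) (eL L) z = mixedEmbedding.norm z := (mixedEmbedding.norm_apply z).symm

theorem real_swap (y : ℝ) (f : ℕ) (z : ℤ) : (y ^ f) ^ z = (y ^ z) ^ f := by
  rw [← zpow_natCast, ← zpow_natCast, ← _root_.zpow_mul, ← _root_.zpow_mul, mul_comm]

theorem real_fin (C L S I X : ℝ) : C * L ^ 2 * S * I * X = C * L ^ 2 * I * X * S := by ring

section

variable [P.IsRootSystem]

theorem sz_of {a : ι → (mixedEmbedding.mixedSpace L)ˣ} {Rb : b.support → ℝ} {c c' : b.support → ℤ}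
    (h : Sz b ((Ideal.absNorm v.asIdeal : ℝ) ^ Module.finrank K L) (((Ideal.absNorm 𝔫 : ℝ) * (Ideal.absNorm v.asIdeal : ℝ) ^ (r + s)) ^ Module.finrank K L)
      (fun i => ∏ β ∈ Phi b i, nm (nrL L) (eL L) (a β : mixedEmbedding.mixedSpace L)) Rb c c') :
    L8.Sz4 b L 𝔫 v r s c c' Rb (L8.Ea b a) := by
  intro i j hO
  have e : ∀ i j : b.support, L8.Ea b a i j = (∏ β ∈ Phi b i, nm (nrL L) (eL L) (a β : mixedEmbedding.mixedSpace L)) * ∏ β ∈ Phi b j, nm (nrL L) (eL L) (a β : mixedEmbedding.mixedSpace L) := by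
    intro i j
    simp only [nm_eq]
    rfl
  have e1 : ((Ideal.absNorm v.asIdeal : ℝ) ^ (L1S.Sl b i c + L1S.Sl b j c')) ^ Module.finrank K L = ((Ideal.absNorm v.asIdeal : ℝ) ^ Module.finrank K L) ^ S2 b i j (pr b c) (pr b c') :=
    (real_swap _ _ _).symm
  rw [e1, e]
  rcases h i j hO with h1 | ⟨l, T, hT, h1⟩
  · refine Or.inl (h1.trans (le_of_eq ?_))
    rw [← pow_mul, ← pow_mul, mul_comm (Module.finrank K L)]
    rfl
  · refine Or.inr ⟨l, T, hT, h1.trans (le_of_eq ?_)⟩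
    rw [real_swap]
    rfl

theorem aut_of {μ ρ : Measure (L1S.HRt (L1S.HQ (old Q)))} {D : Set (L1S.HRt (L1S.HQ (old Q)))} {φ w F : L1S.HRt (L1S.HQ (old Q)) → ℂ} {c κ : ℂ}
    (h : Aut (L1S.GamHR (L1S.HQ (old Q)) 𝔫 v r s) μ ρ D φ w F c κ) : L8.AutF (old Q) 𝔫 v r s μ D φ ρ w F c κ := ⟨h.cont, h.inv, h.l2, h.eig, h.cv⟩

/-- **The statement**. -/
theorem est [P.IsReduced] [P.IsIrreducible] [IsGalois K L] :
    EstCl K (h0 b) (GQ Q) (mixedEmbedding L) (fun i => (Sum.inl i, Sum.inr (P.reflectionPerm i i))) (sp Q) (nrL L) (eL L) (fun i => (Phi b i).card) (Adm Q (nrL L) (eL L) (plL K L)) := by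
  intro m1 hm1 m2 hm2 Ω S₀ hΩ hS₀
  obtain rfl : m1 = borel _ := hm1.measurable_eq
  obtain rfl : m2 = borel _ := hm2.measurable_eq
  obtain ⟨C, hC⟩ := L8.statementG (old Q) Ω S₀ hΩ hS₀
  refine ⟨C, ?_⟩
  rintro v 𝔫 h𝔫 hv r s π hπ m h w' hh θ hθ t x d ht ⟨u, ω, hω, hx⟩ μ ρ hμ w S Λ B φ δ ⟨hfin, hcpt, hsupp, hmeas, hbdd, hnorm, hnonneg, hminors, hcont, htsupp, hpos, hnear⟩ q X
    ⟨c, a, hinj, hinv, hdom, hlev, hw, hq, rfl, hpl, hsz, rfl⟩ ν hν D D₀ hD hD₀ M' F c' κ hF horth t' ht' z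
  obtain rfl : w' = fun j => wt b (c j) := funext hw
  obtain rfl : q = fun j => (Ideal.absNorm v.asIdeal : ℝ) ^ (∑ β with 0 < b.height β, pr b (c j) β) := funext hq
  have hθ' := gen_of Q 𝔫 v r s hθ
  rw [gam_eq] at hD hF hD₀ ht'
  -- the entries of `t` are units
  have hu : ∀ β, a β * (t⁻¹).1.1.1 (Sum.inr β) (Sum.inr β) = 1 := by
    intro β
    have h1 : t.1.1.1 * (t⁻¹).1.1.1 = 1 := t.1.1.mul_inv
    have h2 := congrFun (congrFun h1 (Sum.inr β)) (Sum.inr β)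
    rw [ht, Matrix.diagonal_mul, Matrix.one_apply_eq] at h2
    exact h2
  let a' : ι → (mixedEmbedding.mixedSpace L)ˣ := fun β => Units.mkOfMulEqOne _ _ (hu β)
  have k1 := hC v 𝔫 h𝔫 hv r s m c hinj hinv hdom hlev π hπ h (fun j => hecke_of 𝔫 v r s (hh j)) θ hθ' t a' ht x ⟨u, ω, hω, by rw [hx]; rfl⟩
  have k2 := @k1 μ ρ hμ w S Λ ⟨hfin, hmeas, hbdd, hcpt, hsupp, hnorm⟩ B hnonneg hminors φ hcont htsupp δ hpos hpl hnear (fun j j' => sz_of (a := a') 𝔫 v r s (hsz j j'))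
  have key := @k2 ν hν D₀ hD₀ D hD M' F c' κ (fun l => aut_of Q 𝔫 v r s (hF l)) horth t' ht' z
  refine key.trans (le_of_eq ?_)
  simp only [nm_eq]
  exact real_fin _ _ _ _ _

/-- **The hybrid density theorem**. -/
theorem hybrid [P.IsReduced] [P.IsIrreducible] [IsGalois K L] : Hybrid Q :=
  @est _ _ _ _ _ _ _ _ _ _ _ _ _ _ _ _ _ _ _ Q _ _ _ _

end

end

end Pool.Agent.Lib.L8.PM
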