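import Mathlib

/-!
# The hybrid density theorem for the globally generic spectrum of every quasi-split group: the statement

`P` is an irreducible reduced crystallographic root system with base `b`, `L / K` a finite Galois extension of number fields and `Q : QS b K L` an action of the Galois group on the Dynkin diagram of `P`. The definitions
are made in general in sections 1 (a group `G` with subgroups `Γ`, `U`; closures of images of subgroups), 2 (groups of matrices over `L`, their closures in matrix groups over a ring `R`) and 3 (levels, Hecke elements,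
the general form `Est` of the statement); section 4 has the combinatorics of the root system and section 5 (`Hybrid`) the statement for the quasi-split group `G(K)` of type `(P, Q)`. The matrices are then indexed by
`b.support ⊕ ι` (`ι` the set of roots): this is the adjoint representation of Geck's construction of the simple Lie algebra of `P` (`RootPairing.GeckConstruction`), with the Chevalley generators `e_i`, `f_i`;
`G(L)` is generated by the `exp(t e_i)`, `exp(t f_i)`, `t ∈ L`; `s ∈ Gal(L/K)` acts on the matrices over `L` by `τ_s(X) = D_s s(X) D_s⁻¹`, `D_s` the permutation matrix of `s`; `G(K)` is generated by the unipotent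
upper and the unipotent lower elements of `G(L)` which are fixed by all `τ_s`: it is the image in the adjoint group of the `K`-points of the simply connected quasi-split group of type `(P, Q)`. For `L = K` it is the
split group. `R = L ⊗ ℝ`.
-/

namespace Pool.Agent.Lib.L8.PM

open MeasureTheory Matrix NumberField IsDedekindDomain

noncomputable section

set_option linter.unusedSectionVars false

/-! ## 1. Groups -/

section groups

variable {G : Type} [Group G]

/-- **Hecke operators**: `F` is an eigenfunction with the eigenvalue `t` of the operator of the double coset `Γ h Γ`: `∑ F (w x) = t F (x)`, the sum over `w ∈ Γ \ Γ h Γ`. -/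
def IsT (Γ : Subgroup G) (h : G) (F : G → ℂ) (t : ℂ) : Prop :=
  ∃ S : Finset G, (∀ w ∈ S, ∃ γ ∈ Γ, ∃ γ' ∈ Γ, w = γ * h * γ') ∧ (∀ w, (∃ γ ∈ Γ, ∃ γ' ∈ Γ, w = γ * h * γ') → ∃! w', w' ∈ S ∧ w * w'⁻¹ ∈ Γ) ∧ ∀ x, ∑ w ∈ S, F (w * x) = t * F x

variable [MeasurableSpace G]

/-- **The Whittaker coefficient** of `F` at `x`: the mean value of `F (u x) ψ(u)⁻¹` over `D`, a fundamental domain for a discrete subgroup of `U`. -/
def Wh (U : Subgroup G) [MeasurableSpace U] (ν : Measure U) (D : Set U) (ψ : U → ℂ) (F : G → ℂ) (x : G) : ℂ := ⨍ u in D, F (u.1 * x) * star (ψ u) ∂ν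

/-- The right convolution of `F` and the complex measure `w ρ`: `x ↦ ∫ F(x y) w(y) dρ(y)`. -/
def Cv (ρ : Measure G) (w F : G → ℂ) (x : G) : ℂ := ∫ y, F (x * y) * w y ∂ρ

variable [TopologicalSpace G]

/-- Continuous functions in `L²(Γ \ G)` (`D` a fundamental domain) which are eigenfunctions of the convolution operators of `φ` (eigenvalue `c`) and of `w ρ` (eigenvalue `κ`). -/
structure Aut (Γ : Subgroup G) (μ ρ : Measure G) (D : Set G) (φ w F : G → ℂ) (c κ : ℂ) : Prop where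
  cont : Continuous F
  inv : ∀ γ ∈ Γ, ∀ x, F (γ * x) = F x
  l2 : MemLp F 2 (μ.restrict D)
  eig : ∀ x, Cv μ φ F x = c * F x
  cv : ∀ x, Cv ρ w F x = κ * F x

/-- **The inequality** at a point `x`: for orthonormal `F_1, …, F_M` in `L²(Γ \ G)` which are eigenfunctions of the convolution operators of `φ` and `w ρ` (eigenvalues `c_l`, `κ_l`) and of the Hecke operators of the
double cosets `Γ h_j Γ` (eigenvalues `t_lj`), and complex numbers `z_j`: `∑_l |c_l κ_l (∑_j z_j t_lj) W(F_l)|² ≤ Y ∑_j |z_j|² q_j`, `W(F)` the Whittaker coefficient of `F` at `x` (mean value over `(Γ ∩ U) \ U`). -/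
def Bound (U Γ : Subgroup G) [MeasurableSpace U] (μ ρ : Measure G) (ν : Measure U) (φ w : G → ℂ) (ψ : U → ℂ) (x : G) (m : ℕ) (h : Fin m → G) (q : Fin m → ℝ) (Y : ℝ) : Prop :=
  ∀ (D : Set G) (D₀ : Set U), IsFundamentalDomain Γ D μ → IsFundamentalDomain (Γ.subgroupOf U) D₀ ν → ∀ (M : ℕ) (F : Fin M → G → ℂ) (c κ : Fin M → ℂ), (∀ l, Aut Γ μ ρ D φ w (F l) (c l) (κ l)) →
    (∀ l k, ∫ x in D, star (F l x) * F k x ∂μ = if l = k then 1 else 0) → ∀ t : Fin M → Fin m → ℂ, (∀ l j, IsT Γ (h j) (F l) (t l j)) → ∀ z : Fin m → ℂ,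
    ∑ l, ‖c l * κ l * (∑ j, z j * t l j) * Wh U ν D₀ ψ (F l) x‖ ^ 2 ≤ Y * ∑ j, ‖z j‖ ^ 2 * q j

end groups

section closures

variable {A B : Type} [Group A] [Group B] [TopologicalSpace B] [IsTopologicalGroup B]

/-- The closure of the image of `H` under the homomorphism `τ`. -/
def Cl (τ : A →* B) (H : Subgroup A) : Subgroup B := (H.map τ).topologicalClosure

/-- The homomorphism `τ` from `H` to the closure of its image. -/
def em (τ : A →* B) (H : Subgroup A) : H →* Cl τ H where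
  toFun g := ⟨τ g.1, Subgroup.le_topologicalClosure _ ⟨g.1, g.2, rfl⟩⟩
  map_one' := Subtype.ext (map_one τ)
  map_mul' _ _ := Subtype.ext (map_mul τ _ _)

end closures

/-! ## 2. Groups of matrices -/

section matrices

variable {n : Type} [Fintype n] [DecidableEq n]

/-- The subgroup of `GL(K)` generated by the `exp(t e_i)` and the `exp(t f_i)`, `t ∈ K`. -/
def Grp {J : Type} (e f : J → Matrix n n ℚ) (K : Type) [Field K] [CharZero K] : Subgroup (GL n K) :=
  Subgroup.closure {g | ∃ (i : J) (t : K), g.1 = IsNilpotent.exp (t • (e i).map (algebraMap ℚ K)) ∨ g.1 = IsNilpotent.exp (t • (f i).map (algebraMap ℚ K))}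

variable {R : Type} [CommRing R]

/-- The row sums of the `k`-th compound matrix of `Y` (the matrix of the minors of order `k`) in the absolute value `nr` are at most `B` (every minor appears `k!` times in the sum). -/
def CB (nr : R → ℝ) (k : ℕ) (Y : Matrix n n R) (B : ℝ) : Prop := ∀ f : Fin k → n, ∑ g : Fin k → n, nr (Y.submatrix f g).det ≤ k.factorial * B

variable (ht : n → ℤ)

theorem uni_mul {g h : Matrix n n R} (hg : ∀ r c, ht r ≤ ht c → g r c = (1 : Matrix n n R) r c) (hh : ∀ r c, ht r ≤ ht c → h r c = (1 : Matrix n n R) r c) (r c : n) (hrc : ht r ≤ ht c) :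
    (g * h) r c = (1 : Matrix n n R) r c := by
  rw [Matrix.mul_apply, Finset.sum_eq_single r]
  · rw [hg r r le_rfl, hh r c hrc, Matrix.one_apply_eq, one_mul]
  · intro k _ hk
    by_cases h1 : ht r ≤ ht k
    · rw [hg r k h1, Matrix.one_apply_ne hk.symm, zero_mul]
    · by_cases h3 : k = c
      · subst h3
        exact absurd hrc h1
      · rw [hh k c ((not_le.1 h1).le.trans hrc), Matrix.one_apply_ne h3, mul_zero]
  · intro h
    exact absurd (Finset.mem_univ r) h

/-- **The unipotent group** `U`: the elements of `G` for which `g - 1` raises the height. -/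
def Uni (G : Subgroup (GL n R)) : Subgroup G where
  carrier := {g | ∀ r c, ht r ≤ ht c → g.1.1 r c = (1 : Matrix n n R) r c ∧ g⁻¹.1.1 r c = (1 : Matrix n n R) r c}
  one_mem' := fun r c _ => by simp
  mul_mem' := by
    intro g h hg hh r c hrc
    refine ⟨uni_mul ht (fun r c h => (hg r c h).1) (fun r c h => (hh r c h).1) r c hrc, ?_⟩
    rw [_root_.mul_inv_rev]
    exact uni_mul ht (fun r c h => (hh r c h).2) (fun r c h => (hg r c h).2) r c hrc
  inv_mem' := by
    intro g hg r c hrc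
    rw [inv_inv]
    exact ⟨(hg r c hrc).2, (hg r c hrc).1⟩

variable {K L : Type} [Field K] [Field L] [Algebra K L] (A : Subgroup (GL n L))

/-- The subgroup of `A` which is generated by the elements `g` which are fixed by the Galois group (it acts on the entries and by `σ` on the places of the entries: `g_(s r, s c) = s(g_(r, c))`) and unipotent upper
(`g - 1` raises the height) or unipotent lower (`g - 1` lowers the height). -/
def Fix (σ : (L ≃ₐ[K] L) → n → n) : Subgroup A :=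
  Subgroup.closure {g | (∀ s r c, g.1.1 (σ s r) (σ s c) = s (g.1.1 r c)) ∧
    ((∀ r c, ht r ≤ ht c → g.1.1 r c = (1 : Matrix n n L) r c) ∨ (∀ r c, ht c ≤ ht r → g.1.1 r c = (1 : Matrix n n L) r c))}

variable {G₀ : Subgroup (GL n R)} {G : Subgroup G₀} (U : Subgroup G) {J : Type}

section

variable [TopologicalSpace R] [MeasurableSpace G] {V : Type}

/-- **Test data**: `w ρ` is a complex measure on `G` with support in the compact set `S` and `Λ` bounds the norm of its right convolution operator on `L²(G)`; `B_(i,y)` bounds the row sums of the `k_i`-th compound matrices of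
`g` and `g⁻¹` at the place `y` for all `g ∈ S`; `φ` is continuous with support in `S₀`; `0 < δ_y ≤ 1`, and for every place `y` with `δ_y < 1` all entries of `g - 1` and of `g⁻¹ - 1` are at most `δ_y` at the place `y` for
`g` in `S` and in the support of `φ`. -/
structure Test (nr : V → R → ℝ) (k : J → ℕ) (S₀ : Set G) (μ ρ : Measure G) (w : G → ℂ) (S : Set G) (Λ : ℝ) (B : J → V → ℝ) (φ : G → ℂ) (δ : V → ℝ) : Prop where
  fin : IsFiniteMeasure ρ
  cpt : IsCompact S
  supp : ρ Sᶜ = 0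
  meas : Measurable w
  bdd : ∃ c : ℝ, ∀ y, ‖w y‖ ≤ c
  norm : ∀ F : G → ℂ, Measurable F → ∫⁻ x, ‖F x‖ₑ ^ 2 ∂μ ≠ ⊤ → ∫⁻ x, ‖Cv ρ w F x‖ₑ ^ 2 ∂μ ≤ ENNReal.ofReal (Λ ^ 2) * ∫⁻ x, ‖F x‖ₑ ^ 2 ∂μ
  nonneg : ∀ i y, 0 ≤ B i y
  minors : ∀ g ∈ S, ∀ i y, CB (nr y) (k i) g.1.1.1 (B i y) ∧ CB (nr y) (k i) g⁻¹.1.1.1 (B i y)
  cont : Continuous φ
  tsupp : tsupport φ ⊆ S₀
  pos : ∀ y, 0 < δ y ∧ δ y ≤ 1
  near : ∀ g, g ∈ S ∨ g ∈ tsupport φ → ∀ y, δ y = 1 ∨ ∀ i j, nr y ((g.1.1.1 - 1) i j) ≤ δ y ∧ nr y ((g⁻¹.1.1.1 - 1) i j) ≤ δ y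

end

variable [Algebra ℝ R] [Fintype J]

/-- The character `ψ(u) = e(∑ θ_i(u_i))` of `U`, `u_i` the entry of `u` at the place `a_i`, `e(x) = exp(2πix)`. -/
def psi (a : J → n × n) (θ : J → (R →ₗ[ℝ] ℝ)) (u : U) : ℂ := Complex.exp (2 * Real.pi * ((∑ i, θ i (u.1.1.1.1 (a i).1 (a i).2) : ℝ) : ℂ) * Complex.I)

/-- **Nondegenerate characters**: `ψ` is trivial on `Γ ∩ U`, and for every `i` the form `z ↦ ∑_t θ_(t i)(t z)` on `L` is not zero (it is the restriction of the exponent of `ψ` to the root group of the orbit of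
the simple root `α_i`; for `L = K` it is `θ_i`); `p : L → R` is the embedding, `σ` the action of the Galois group on the simple roots. -/
def Gen [Fintype (L ≃ₐ[K] L)] (p : L →+* R) (Γ : Subgroup G) (a : J → n × n) (σ : (L ≃ₐ[K] L) → J → J) (θ : J → (R →ₗ[ℝ] ℝ)) : Prop :=
  (∀ i, ∃ z : L, ∑ t : L ≃ₐ[K] L, θ (σ t i) (p (t z)) ≠ 0) ∧ ∀ u : U, u.1 ∈ Γ → psi U a θ u = 1

end matrices

/-! ## 3. Number fields -/

section fields

variable {K L : Type} [Field K] [NumberField K] [Field L] [NumberField L] [Algebra K L]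

/-- `x ∈ 𝔞 𝓞_L`, `𝔞` an ideal of `𝓞_K`. -/
def InO (𝔞 : Ideal (𝓞 K)) (x : L) : Prop := ∃ y ∈ 𝔞.map (algebraMap (𝓞 K) (𝓞 L)), (y : L) = x

section ideals

variable {𝔞 : Ideal (𝓞 K)} {x y : L}

theorem InO.add (hx : InO 𝔞 x) (hy : InO 𝔞 y) : InO 𝔞 (x + y) := by
  obtain ⟨a, ha, rfl⟩ := hx
  obtain ⟨c, hc, rfl⟩ := hy
  exact ⟨a + c, Ideal.add_mem _ ha hc, by simp⟩

theorem InO.zero (𝔞 : Ideal (𝓞 K)) : InO 𝔞 (0 : L) := ⟨0, Ideal.zero_mem _, by simp⟩

theorem InO.sum {α : Type} (s : Finset α) (f : α → L) (h : ∀ k ∈ s, InO 𝔞 (f k)) : InO 𝔞 (∑ k ∈ s, f k) := by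
  classical
  induction s using Finset.induction_on with
  | empty => simpa using InO.zero 𝔞
  | insert a s ha ih =>
    rw [Finset.sum_insert ha]
    exact (h a (Finset.mem_insert_self _ _)).add (ih fun k hk => h k (Finset.mem_insert_of_mem hk))

theorem InO.mul (hx : InO 𝔞 x) (hy : InO (⊤ : Ideal (𝓞 K)) y) : InO 𝔞 (x * y) := by
  obtain ⟨a, ha, rfl⟩ := hx
  obtain ⟨c, _, rfl⟩ := hy
  exact ⟨a * c, Ideal.mul_mem_right _ _ ha, by simp⟩

theorem InO.top (hx : InO 𝔞 x) : InO (⊤ : Ideal (𝓞 K)) x := by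
  obtain ⟨a, _, rfl⟩ := hx
  exact ⟨a, by rw [Ideal.map_top]; exact Submodule.mem_top, rfl⟩

theorem InO.one_top : InO (⊤ : Ideal (𝓞 K)) (1 : L) := ⟨1, by rw [Ideal.map_top]; exact Submodule.mem_top, by simp⟩

end ideals

variable (𝔫 : Ideal (𝓞 K)) (v : HeightOneSpectrum (𝓞 K)) (r s : ℕ)

/-- `x` is integral over the localisation of `𝓞 K` at `v` (integral at all places of `L` over `v`). -/
def IntV (x : L) : Prop := ∃ y : 𝓞 K, y ∉ v.asIdeal ∧ InO (⊤ : Ideal (𝓞 K)) (algebraMap K L (y : K) * x)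

variable {n : Type} [Fintype n] [DecidableEq n] (ht : n → ℤ)

/-- Entries of `g - 1` in `𝔫 𝓞_L`, lower entries (those which lower the height) in `v ^ (r + s) 𝓞_L`, diagonal blocks congruent to `1` modulo `v ^ r 𝓞_L`. -/
def Lev (g : Matrix n n L) : Prop :=
  ∀ i j, InO 𝔫 ((g - 1) i j) ∧ (ht i < ht j → InO (v.asIdeal ^ (r + s)) (g i j)) ∧ (ht i = ht j → InO (v.asIdeal ^ r) ((g - 1) i j))

/-- Entries integral at `v`, lower entries in `π ^ (r + s)`, diagonal blocks congruent to `1` modulo `π ^ r`. -/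
def IwV (π : K) (g : Matrix n n L) : Prop :=
  ∀ i j, IntV v (g i j) ∧ (ht i < ht j → IntV v ((algebraMap K L π)⁻¹ ^ (r + s) * g i j)) ∧ (ht i = ht j → IntV v ((algebraMap K L π)⁻¹ ^ r * (g - 1) i j))

/-- `g ∈ Γ_v λ(π)⁻¹`, `Γ_v` the group of level `r, s` at `v`, `λ(π)` the diagonal matrix with the entries `π ^ w_i`. -/
def AtV (π : K) (w : n → ℤ) (g : GL n L) : Prop :=
  IwV v r s ht π (g.1 * Matrix.diagonal fun i => algebraMap K L π ^ w i) ∧ IwV v r s ht π ((Matrix.diagonal fun i => algebraMap K L π ^ (-w i)) * g⁻¹.1)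

theorem lev_mul {g h : Matrix n n L} (hg : Lev 𝔫 v r s ht g) (hk : Lev 𝔫 v r s ht h) : Lev 𝔫 v r s ht (g * h) := by
  have hld : (v.asIdeal ^ (r + s)).map (algebraMap (𝓞 K) (𝓞 L)) ≤ (v.asIdeal ^ r).map (algebraMap (𝓞 K) (𝓞 L)) := Ideal.map_mono (Ideal.pow_le_pow_right (Nat.le_add_right r s))
  have int : ∀ a : Matrix n n L, (∀ r c, InO 𝔫 ((a - 1) r c)) → ∀ r c, InO (⊤ : Ideal (𝓞 K)) (a r c) := by
    intro a ha r c
    have e : a r c = (a - 1) r c + (1 : Matrix n n L) r c := by simp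
    rw [e]
    refine (ha r c).top.add ?_
    by_cases h : r = c
    · subst h
      rw [Matrix.one_apply_eq]
      exact InO.one_top
    · rw [Matrix.one_apply_ne h]
      exact InO.zero _
  have mono : ∀ {x : L}, InO (v.asIdeal ^ (r + s)) x → InO (v.asIdeal ^ r) x := fun ⟨y, hy, e⟩ => ⟨y, hld hy, e⟩
  have ig := int g fun r c => (hg r c).1
  have ih := int h fun r c => (hk r c).1
  have e : g * h - 1 = (g - 1) * h + (h - 1) := by
    rw [sub_mul, one_mul]
    abel
  intro i c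
  refine ⟨?_, ?_, ?_⟩
  · rw [e, Matrix.add_apply, Matrix.mul_apply]
    exact (InO.sum _ _ fun k _ => (hg i k).1.mul (ih k c)).add (hk i c).1
  · intro hrc
    rw [Matrix.mul_apply]
    refine InO.sum _ _ fun k _ => ?_
    by_cases h1 : ht i < ht k
    · exact ((hg i k).2.1 h1).mul (ih k c)
    · rw [mul_comm]
      exact ((hk k c).2.1 ((not_lt.1 h1).trans_lt hrc)).mul (ig i k)
  · intro hrc
    rw [e, Matrix.add_apply, Matrix.mul_apply]
    refine (InO.sum _ _ fun k _ => ?_).add ((hk i c).2.2 hrc)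
    rcases lt_trichotomy (ht i) (ht k) with h1 | h1 | h1
    · have hrk : i ≠ k := by
        rintro rfl
        exact absurd h1 (lt_irrefl _)
      have e1 : (g - 1) i k = g i k := by rw [Matrix.sub_apply, Matrix.one_apply_ne hrk, sub_zero]
      rw [e1]
      exact (mono ((hg i k).2.1 h1)).mul (ih k c)
    · exact ((hg i k).2.2 h1).mul (ih k c)
    · rw [mul_comm]
      exact (mono ((hk k c).2.1 (h1.trans_le hrc.le))).mul (hg i k).1.top

theorem lev_one : Lev 𝔫 v r s ht (1 : Matrix n n L) := by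
  intro i j
  rw [sub_self]
  refine ⟨InO.zero _, fun h => ?_, fun _ => InO.zero _⟩
  rw [Matrix.one_apply_ne (by rintro rfl; exact absurd h (lt_irrefl _))]
  exact InO.zero _

variable (A : Subgroup (GL n L))

/-- The elements `g` of `A` with `g`, `g⁻¹` of level `𝔫`, `r`, `s` (`Lev`). -/
def GamA : Subgroup A where
  carrier := {g | Lev 𝔫 v r s ht g.1.1 ∧ Lev 𝔫 v r s ht g⁻¹.1.1}
  one_mem' := by
    show Lev 𝔫 v r s ht (1 : Matrix n n L) ∧ Lev 𝔫 v r s ht (1 : A)⁻¹.1.1
    rw [inv_one]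
    exact ⟨lev_one 𝔫 v r s ht, lev_one 𝔫 v r s ht⟩
  mul_mem' := by
    intro g h hg hh
    show Lev 𝔫 v r s ht (g * h).1.1 ∧ Lev 𝔫 v r s ht (g * h)⁻¹.1.1
    rw [_root_.mul_inv_rev]
    exact ⟨lev_mul _ _ _ _ _ hg.1 hh.1, lev_mul _ _ _ _ _ hh.2 hg.2⟩
  inv_mem' := by
    intro g hg
    show Lev 𝔫 v r s ht g⁻¹.1.1 ∧ Lev 𝔫 v r s ht g⁻¹⁻¹.1.1
    rw [inv_inv]
    exact ⟨hg.2, hg.1⟩

/-- The elements of `A` over `𝓞_L[1/v]` with `g ≡ 1` modulo `𝔫` (`𝔫` prime to `v`): `v ^ j (g - 1) ⊆ 𝔫 𝓞_L` for some `j`, and the same for `g⁻¹`. -/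
def HG : Set A := {g | ∃ j : ℕ, ∀ a b, ∀ y ∈ v.asIdeal ^ j, InO 𝔫 (algebraMap K L (y : K) * (g.1.1 - 1) a b) ∧ InO 𝔫 (algebraMap K L (y : K) * (g⁻¹.1.1 - 1) a b)}

variable {A} {H : Subgroup A}

/-- **The arithmetic group** `Γ`: the image in `G` of the elements of `H` of level `𝔫`, `r`, `s`. -/
def Gam {G : Type} [Group G] (τ : H →* G) : Subgroup G := ((GamA 𝔫 v r s ht A).subgroupOf H).map τ

variable {R : Type} [CommRing R] [TopologicalSpace R] [Algebra ℝ R] (p : L →+* R) {J : Type} [Fintype J] {V : Type} [Fintype V]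

variable (K) in
/-- **The hybrid density theorem for groups of matrices** `H ⊆ A` over `L` and `U ⊆ G ⊆ G₀` over `R` (`p : L → R`, `τ : H → G` the embeddings, `ht` the grading, `a_i` the places of the matrix entries which give the
characters of `U`, `σ` the action of the Galois group on these places; `nr_y` the absolute values on `R`, `e_y` their multiplicities, `k_i` the orders of the minors). For compact sets `Ω` and `S₀` there is a constant `C`
such that for all levels `𝔫`, `v`, `r`, `s` (`𝔫 ≠ 0` prime to `v`), Hecke elements `h_j ∈ Γ_v w'_j(π)⁻¹`, nondegenerate characters `ψ` given by `θ`, diagonal matrices `t = diag(d)` in `G`, `x ∈ U t Ω`, test data and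
admissible data (weights `w'_j` of the Hecke elements, their degrees `q_j`, `d`, `δ`, the numbers `R_i = ∏_y (B_(i,y) ^ 2 δ_y ^ k_i) ^ e_y` and the volume `X`) the inequality of `Bound` holds with `C Λ² ‖φ‖₂² X`. -/
def Est {G₀ : Subgroup (GL n R)} {G : Subgroup G₀} (U : Subgroup G) (τ : H →* G) (a : J → n × n) (σ : (L ≃ₐ[K] L) → J → J) (nr : V → R → ℝ) (e : V → ℕ) (k : J → ℕ)
    (Adm : Ideal (𝓞 K) → HeightOneSpectrum (𝓞 K) → ℕ → ℕ → (m : ℕ) → (Fin m → n → ℤ) → (Fin m → ℝ) → (n → R) → (V → ℝ) → (J → ℝ) → ℝ → Prop) : Prop :=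
  ∀ [MeasurableSpace G] [BorelSpace G] [MeasurableSpace U] [BorelSpace U] (Ω : Set (GL n R)) (S₀ : Set G), IsCompact Ω → IsCompact S₀ → ∃ C : ℝ,
    ∀ (v : HeightOneSpectrum (𝓞 K)) (𝔫 : Ideal (𝓞 K)), 𝔫 ≠ ⊥ → ¬𝔫 ≤ v.asIdeal → ∀ (r s : ℕ) (π : K), v.valuation K π = WithZero.exp (-1 : ℤ) →
    ∀ (m : ℕ) (h : Fin m → H) (w' : Fin m → n → ℤ), (∀ j, (h j).1 ∈ HG 𝔫 v A ∧ AtV v r s ht π (w' j) (h j).1.1) → ∀ θ : J → (R →ₗ[ℝ] ℝ), Gen U p (Gam 𝔫 v r s ht τ) a σ θ →
    ∀ (t x : G) (d : n → R), t.1.1.1 = Matrix.diagonal d → (∃ u : U, ∃ ω ∈ Ω, x.1.1 = u.1.1.1 * t.1.1 * ω) → ∀ (μ ρ : Measure G) [μ.IsHaarMeasure] (w : G → ℂ) (S : Set G) (Λ : ℝ) (B : J → V → ℝ) (φ : G → ℂ) (δ : V → ℝ),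
    Test nr k S₀ μ ρ w S Λ B φ δ → ∀ (q : Fin m → ℝ) (X : ℝ), Adm 𝔫 v r s m w' q d δ (fun i => ∏ y, (B i y ^ 2 * δ y ^ k i) ^ e y) X → ∀ (ν : Measure U) [ν.IsHaarMeasure],
    Bound U (Gam 𝔫 v r s ht τ) μ ρ ν φ w (psi U a θ) x m (fun j => τ (h j)) q (C * Λ ^ 2 * (∫ y, ‖φ y‖ ^ 2 ∂μ) * X)

variable (K H) in
/-- `Est` for the closure `G` of `H` in `GL(R)` (in the closure `G₀` of `A`) and its unipotent group `U`. -/
def EstCl [IsTopologicalRing R] (a : J → n × n) (σ : (L ≃ₐ[K] L) → J → J) (nr : V → R → ℝ) (e : V → ℕ) (k : J → ℕ)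
    (Adm : Ideal (𝓞 K) → HeightOneSpectrum (𝓞 K) → ℕ → ℕ → (m : ℕ) → (Fin m → n → ℤ) → (Fin m → ℝ) → (n → R) → (V → ℝ) → (J → ℝ) → ℝ → Prop) : Prop :=
  Est K ht p ((Uni ht (Cl (GeneralLinearGroup.map p) A)).subgroupOf (Cl (em (GeneralLinearGroup.map p) A) H)) (em (em (GeneralLinearGroup.map p) A) H) a σ nr e k Adm

end fields

/-! ## 4. Root systems -/

section roots

variable {ι M N : Type} [Fintype ι] [DecidableEq ι] [AddCommGroup M] [Module ℚ M] [AddCommGroup N] [Module ℚ N]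
  {P : RootPairing ι ℚ M N} [P.IsCrystallographic] [P.IsRootSystem] (b : P.Base)

/-- The value `⟨β, λ⟩` of the coweight `λ = ∑ c_j α_j^∨` on a root. -/
def pr (c : b.support → ℤ) (β : ι) : ℤ := ∑ j, c j * P.pairingIn ℤ β j

/-- The weights of the coweight `λ = ∑ c_j α_j^∨` on the adjoint representation. -/
def wt (c : b.support → ℤ) : b.support ⊕ ι → ℤ := Sum.elim (fun _ => 0) (pr b c)

/-- `Φ_i`: the positive roots which contain the simple root `α_i`. -/
def Phi (i : b.support) : Finset ι := Finset.univ.filter fun β => 0 < b.toWeightBasis.repr (P.root β) i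

/-- `w Φ_i = - Φ_j` for some element `w` of the Weyl group. -/
def Opp (i j : b.support) : Prop :=
  ∃ w ∈ Subgroup.closure (Set.range P.reflectionPerm), ∀ β, β ∈ Phi b i ↔ P.reflectionPerm (w β) (w β) ∈ Phi b j

/-- The coefficient of the simple root `α_l` in a root. -/
def mc (l : b.support) (β : ι) : ℤ := b.toWeightBasisInt.repr (P.rootSpanMem ℤ β) l

/-- The sum of `f` over `Φ_i` plus the sum of `g` over `Φ_j`. -/
def S2 (i j : b.support) (f g : ι → ℤ) : ℤ := ∑ β ∈ Phi b i, f β + ∑ β ∈ Phi b j, g β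

/-- **The size condition** for two dominant coweights `λ`, `λ'` and the numbers `R_i`, with `q`, the level `N` and `E_i` for the torus element: for `w Φ_i = - Φ_j` and `S = ∑_{β ∈ Φ_i} ⟨β, λ⟩ + ∑_{β ∈ Φ_j} ⟨β, λ'⟩`:
`q ^ S R_i ≤ N ^ |Φ_i| E_i E_j`, or for some simple root `α_l` and `T ≥ m_l(β)` for all `β`: `(q ^ S R_i) ^ T ≤ N ^ P (E_i E_j) ^ T`, `P` the sum of the coefficients `m_l` of the roots in `Φ_i` and in `Φ_j`. -/
def Sz (q N : ℝ) (E Rb : b.support → ℝ) (c c' : b.support → ℤ) : Prop :=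
  ∀ i j, Opp b i j → q ^ S2 b i j (pr b c) (pr b c') * Rb i ≤ N ^ (Phi b i).card * (E i * E j) ∨
    ∃ (l : b.support) (T : ℕ), (∀ β, mc b l β ≤ T) ∧ (q ^ S2 b i j (pr b c) (pr b c') * Rb i) ^ T ≤ N ^ S2 b i j (mc b l) (mc b l) * (E i * E j) ^ T

/-- **An action of the Galois group on the Dynkin diagram**: on the roots, it preserves the base and the Cartan integers. -/
structure QS (K L : Type) [Field K] [Field L] [Algebra K L] where
  /-- The action on the roots. -/
  act : (L ≃ₐ[K] L) →* Equiv.Perm ι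
  /-- It preserves the base. -/
  base : ∀ s i, act s i ∈ b.support ↔ i ∈ b.support
  /-- It preserves the Cartan integers. -/
  pair : ∀ s β γ, P.pairingIn ℤ (act s β) (act s γ) = P.pairingIn ℤ β γ

variable {b} {K L : Type} [Field K] [Field L] [Algebra K L] (Q : QS b K L)

/-- The action on the simple roots. -/
def sp (s : L ≃ₐ[K] L) (i : b.support) : b.support := ⟨Q.act s i, (Q.base s i).2 i.2⟩

variable [NumberField K] {R : Type} [CommRing R] {V V' : Type} [Fintype V]

/-- The norm `|z| = ∏_y |z|_y ^ e_y` on `R`. -/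
def nm (nr : V → R → ℝ) (e : V → ℕ) (z : R) : ℝ := ∏ y, nr y z ^ e y

/-- **The admissible data** (`N = N(𝔫)`, `q = N(v)` the norms over `K`, `|z|` the norm on `R`, `f = [L : K]`): `w'_j` are the weights of distinct dominant coweights `λ_j` fixed by the Galois group, `r + s ≥ 1` or all `λ_j`
are zero, `q_j = q ^ (∑_{β > 0} ⟨β, λ_j⟩)`; `d` has the entries `a_β` at the roots and `1` at the zero weights; `δ_y` depends only on the place `pl(y)`; all pairs `λ_j`, `λ_j'` satisfy the size condition with `q ^ f`, the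
level `(N q ^ (r + s)) ^ f`, `E_i = ∏_{β ∈ Φ_i} |a_β|` and the numbers `R_i`; `X = (∏_{β > 0} δ |a_β|) ^ (1/f) / N ^ #{β > 0}`, `δ = ∏_y δ_y ^ e_y`. -/
def Adm (nr : V → R → ℝ) (e : V → ℕ) (pl : V → V') (𝔫 : Ideal (𝓞 K)) (v : HeightOneSpectrum (𝓞 K)) (r s m : ℕ) (w' : Fin m → b.support ⊕ ι → ℤ) (q : Fin m → ℝ) (d : b.support ⊕ ι → R) (δ : V → ℝ)
    (Rb : b.support → ℝ) (X : ℝ) : Prop :=
  ∃ (c : Fin m → b.support → ℤ) (a : ι → R), Function.Injective c ∧ (∀ j s i, c j (sp Q s i) = c j i) ∧ (∀ j (i : b.support), 0 ≤ pr b (c j) i) ∧ (1 ≤ r + s ∨ ∀ j, c j = 0) ∧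
    (∀ j, w' j = wt b (c j)) ∧ (∀ j, q j = (Ideal.absNorm v.asIdeal : ℝ) ^ (∑ β with 0 < b.height β, pr b (c j) β)) ∧ d = Sum.elim (fun _ => 1) a ∧ (∀ y y', pl y = pl y' → δ y = δ y') ∧
    (∀ j j', Sz b ((Ideal.absNorm v.asIdeal : ℝ) ^ Module.finrank K L) (((Ideal.absNorm 𝔫 : ℝ) * (Ideal.absNorm v.asIdeal : ℝ) ^ (r + s)) ^ Module.finrank K L) (fun i => ∏ β ∈ Phi b i, nm nr e (a β)) Rb (c j) (c j')) ∧
    X = (∏ β with 0 < b.height β, (∏ y, δ y ^ e y) * nm nr e (a β)) ^ ((Module.finrank K L : ℝ)⁻¹) / (Ideal.absNorm 𝔫 : ℝ) ^ (Finset.univ.filter fun β => 0 < b.height β).card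

end roots

/-! ## 5. The statement -/

section statement

variable {ι M N : Type} [Fintype ι] [DecidableEq ι] [AddCommGroup M] [Module ℚ M] [AddCommGroup N] [Module ℚ N]
  {P : RootPairing ι ℚ M N} [P.IsCrystallographic] {b : P.Base} {K L : Type} [Field K] [NumberField K] [Field L] [NumberField L] [Algebra K L]

/-- **The hybrid density theorem** for the globally generic spectrum of the quasi-split simple group `G(K)` of type `(P, Q)` over `K` (`Fix`: generated by the unipotent upper and the unipotent lower elements of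
`G(L) = ⟨exp(t e_i), exp(t f_i)⟩` which are fixed by the Galois group). The entry of `u ∈ U` in the row of the zero weight of `α_i` and the column of the root `-α_i` is the coordinate of `u` at `α_i`; the absolute values
on `L ⊗ ℝ` are those of the archimedean places of `L`, `pl` is the restriction of places to `K` and the orders of the minors are the numbers `|Φ_i|`. -/
def Hybrid [P.IsRootSystem] (Q : QS b K L) : Prop :=
  EstCl K (Sum.elim (fun _ => 0) b.height)
    (Fix (Sum.elim (fun _ => 0) b.height) (Grp (RootPairing.GeckConstruction.e (b := b)) RootPairing.GeckConstruction.f L) fun s => Sum.map (sp Q s) (Q.act s))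
    (mixedEmbedding L) (fun i => (Sum.inl i, Sum.inr (P.reflectionPerm i i))) (sp Q) (fun w z => mixedEmbedding.normAtPlace w z)
    (fun w : InfinitePlace L => w.mult) (fun i => (Phi b i).card) (Adm Q (fun w z => mixedEmbedding.normAtPlace w z) (fun w : InfinitePlace L => w.mult) fun w => w.comap (algebraMap K L))

end statement

end

end Pool.Agent.Lib.L8.PM
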